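import Mathlib

set_option autoImplicit false

open Set Filter Cardinal Topology

namespace Pool.Agent.Results.MP_eb7acf_gt.NoSuitableSet

/-!
# A generalized orderable topological group with an `ω^ω`-base and without suitable set

Let `κ = 𝔟` be the bounding number (a regular uncountable cardinal).  For every `δ < κ` that is the
limit of a strictly increasing `ω`-sequence fix such a sequence `C_δ` (a ladder).  Let `G` be the
group (symmetric difference) of subsets of `κ` generated by all singletons and all `C_δ`,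
topologized by the subgroups `H_γ = {x : x ∩ γ = ∅}`, `γ < κ`.

* The map `α ↦ min {ξ : f_ξ ≰* α}`, where `(f_ξ)_{ξ<κ}` enumerates an unbounded family, is monotone
  with cofinal range in `κ`; so `G` has an `ω^ω`-base.
* Cosets of the `H_γ` are convex for the lexicographic order, and open rays are open: `G` is a
  GO-space.
* Closing-off: if `S` is suitable, then each `S \ H_ρ` is closed and discrete and is contained in
  the subgroup `G_h` generated by the generators below some `h = h(ρ) < κ`.  If `δ` is closed under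
  `h` and has a ladder, then `C_δ` is not in `⟨S⟩ H_δ`, contradicting density.
-/

/-! ## The notions of the problem -/

/-- `S` is a suitable set for the topological group `G`: `S` is a discrete subspace, `S ∪ {e}` is
closed, and the subgroup generated by `S` is dense. -/
def IsSuitableSet {G : Type*} [Group G] [TopologicalSpace G] (S : Set G) : Prop :=
  DiscreteTopology S ∧ IsClosed (S ∪ {1}) ∧ Dense (Subgroup.closure S : Set G)

/-- The space `X` has an `ω^ω`-base: every point has a neighbourhood base indexed by `ℕ → ℕ`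
(pointwise order) that is order-reversing in the index. -/
def HasOmegaOmegaBase (X : Type*) [TopologicalSpace X] : Prop :=
  ∀ x : X, ∃ U : (ℕ → ℕ) → Set X,
    (𝓝 x).HasBasis (fun _ => True) U ∧ ∀ α β : ℕ → ℕ, α ≤ β → U β ⊆ U α

/-- The space `X` is generalized orderable: for some linear order the topology contains the
open-interval topology and has a base of order-convex sets. -/
def IsGeneralizedOrderable (X : Type*) [t : TopologicalSpace X] : Prop :=
  ∃ L : LinearOrder X, t ≤ @Preorder.topology X L.toPreorder ∧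
    ∃ B : Set (Set X), TopologicalSpace.IsTopologicalBasis B ∧
      ∀ s ∈ B, @Set.OrdConnected X L.toPreorder s

/-! ## The construction over a well-ordered index set -/

section Construction

set_option linter.unusedSectionVars false

variable {W : Type} [LinearOrder W]

/-- `s` is a strictly increasing sequence cofinal in `δ`. -/
def IsLadder (s : ℕ → W) (δ : W) : Prop :=
  StrictMono s ∧ (∀ n, s n < δ) ∧ ∀ w < δ, ∃ n, w < s n

open Classical in
/-- A chosen ladder at `δ` (empty if there is none). -/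
noncomputable def ladder (δ : W) : Set W :=
  if h : ∃ s : ℕ → W, IsLadder s δ then Set.range h.choose else ∅

lemma ladder_lt {δ w : W} (hw : w ∈ ladder δ) : w < δ := by
  classical
  unfold ladder at hw
  split_ifs at hw with h
  · obtain ⟨n, rfl⟩ := hw
    exact h.choose_spec.2.1 n
  · exact absurd hw (by simp)

lemma ladder_finite {δ γ : W} (hγ : γ < δ) : (ladder δ ∩ Iio γ).Finite := by
  classical
  unfold ladder
  split_ifs with h
  · obtain ⟨hm, -, hc⟩ := h.choose_spec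
    obtain ⟨n, hn⟩ := hc γ hγ
    refine (Set.finite_Iio n).image h.choose |>.subset ?_
    rintro _ ⟨⟨m, rfl⟩, hm'⟩
    refine ⟨m, ?_, rfl⟩
    exact hm.lt_iff_lt.1 (lt_trans hm' hn)
  · simp

lemma ladder_unbounded {δ : W} (h : ∃ s : ℕ → W, IsLadder s δ) {w : W} (hw : w < δ) :
    ∃ c ∈ ladder δ, w < c := by
  classical
  unfold ladder
  rw [dif_pos h]
  obtain ⟨hm, -, hc⟩ := h.choose_spec
  obtain ⟨n, hn⟩ := hc w hw
  exact ⟨_, ⟨n, rfl⟩, hn⟩

open Classical in
/-- The element of `W → ℤˣ` equal to `-1` exactly on `s`. -/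
noncomputable def chi (s : Set W) : W → ℤˣ := fun w => if w ∈ s then -1 else 1

lemma chi_of_mem {s : Set W} {w : W} (h : w ∈ s) : chi s w = -1 := by simp [chi, h]
lemma chi_of_not_mem {s : Set W} {w : W} (h : w ∉ s) : chi s w = 1 := by simp [chi, h]

lemma inv_self (x : W → ℤˣ) : x⁻¹ = x := by
  ext w; simp

/-- Generators below `h`. -/
def gens (h : W) : Set (W → ℤˣ) := {x | ∃ ξ < h, x = chi {ξ} ∨ x = chi (ladder ξ)}

/-- The subgroup generated by the generators below `h`. -/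
def Gs (h : W) : Subgroup (W → ℤˣ) := Subgroup.closure (gens h)

/-- All generators. -/
def gensAll : Set (W → ℤˣ) := {x | ∃ ξ : W, x = chi {ξ} ∨ x = chi (ladder ξ)}

variable (W) in
/-- The whole group, as a subgroup of `W → ℤˣ`. -/
def Gall : Subgroup (W → ℤˣ) := Subgroup.closure gensAll

lemma gens_mono {h h' : W} (hh : h ≤ h') : gens h ⊆ gens h' := by
  rintro x ⟨ξ, hξ, hx⟩
  exact ⟨ξ, lt_of_lt_of_le hξ hh, hx⟩

lemma Gs_mono {h h' : W} (hh : h ≤ h') : Gs h ≤ Gs h' := Subgroup.closure_mono (gens_mono hh)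

lemma Gs_le_Gall (h : W) : Gs h ≤ Gall W := by
  apply Subgroup.closure_mono
  rintro x ⟨ξ, _, hx⟩
  exact ⟨ξ, hx⟩

/-- Elements of `Gs h` are trivial from `h` on. -/
lemma Gs_supp {h : W} {x : W → ℤˣ} (hx : x ∈ Gs h) : ∀ w, h ≤ w → x w = 1 := by
  intro w hw
  induction hx using Subgroup.closure_induction with
  | mem x hx =>
    obtain ⟨ξ, hξ, rfl | rfl⟩ := hx
    · apply chi_of_not_mem
      intro hmem
      rw [Set.mem_singleton_iff] at hmem
      exact absurd (lt_of_lt_of_le hξ hw) (by simp [hmem])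
    · apply chi_of_not_mem
      intro hmem
      exact absurd (lt_trans (ladder_lt hmem) (lt_of_lt_of_le hξ hw)) (lt_irrefl _)
  | one => rfl
  | mul x y _ _ hx hy => simp [hx, hy]
  | inv x _ hx => simp [hx]

/-- A finite subset of `Iio δ` gives an element of `Gs δ`. -/
lemma chi_finite_mem {δ : W} {F : Set W} (hF : F.Finite) (hs : F ⊆ Iio δ) : chi F ∈ Gs δ := by
  classical
  induction F, hF using Set.Finite.induction_on with
  | empty =>
    have : chi (∅ : Set W) = 1 := by ext w; simp [chi]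
    rw [this]; exact one_mem _
  | @insert a s ha _ ih =>
    have h1 : chi (insert a s) = chi {a} * chi s := by
      ext w
      by_cases hwa : w = a
      · subst hwa
        simp [chi, ha]
      · simp [chi, hwa]
    rw [h1]
    refine mul_mem (Subgroup.subset_closure ⟨a, ?_, Or.inl rfl⟩) (ih ?_)
    · exact hs (mem_insert _ _)
    · exact (subset_insert _ _).trans hs

/-- Every element of the group agrees below `δ` with an element of `Gs δ`, for all `δ` outside a
finite set. -/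
lemma exists_finite_bad {x : W → ℤˣ} (hx : x ∈ Gall W) :
    ∃ A : Set W, A.Finite ∧ ∀ δ, δ ∉ A → ∃ g ∈ Gs δ, EqOn g x (Iio δ) := by
  induction hx using Subgroup.closure_induction with
  | mem x hx =>
    obtain ⟨ξ, rfl | rfl⟩ := hx
    · refine ⟨∅, Set.finite_empty, fun δ _ => ?_⟩
      by_cases h : ξ < δ
      · exact ⟨_, Subgroup.subset_closure ⟨ξ, h, Or.inl rfl⟩, fun _ _ => rfl⟩
      · refine ⟨1, one_mem _, fun w hw => ?_⟩
        rw [chi_of_not_mem]
        · rfl
        · intro hmem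
          rw [Set.mem_singleton_iff] at hmem
          exact h (hmem ▸ hw)
    · refine ⟨{ξ}, Set.finite_singleton _, fun δ hδ => ?_⟩
      rw [Set.mem_singleton_iff] at hδ
      rcases lt_or_gt_of_ne hδ with h | h
      · -- `δ < ξ`
        refine ⟨chi (ladder ξ ∩ Iio δ), chi_finite_mem (ladder_finite h) inter_subset_right, ?_⟩
        intro w hw
        simp only [mem_Iio] at hw
        by_cases hmem : w ∈ ladder ξ
        · rw [chi_of_mem (show w ∈ ladder ξ ∩ Iio δ from ⟨hmem, hw⟩), chi_of_mem hmem]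
        · rw [chi_of_not_mem (show w ∉ ladder ξ ∩ Iio δ from fun h' => hmem h'.1),
            chi_of_not_mem hmem]
      · exact ⟨_, Subgroup.subset_closure ⟨ξ, h, Or.inr rfl⟩, fun _ _ => rfl⟩
  | one => exact ⟨∅, Set.finite_empty, fun δ _ => ⟨1, one_mem (Gs δ), fun _ _ => rfl⟩⟩
  | mul x y _ _ hx hy =>
    obtain ⟨A, hA, hA'⟩ := hx
    obtain ⟨B, hB, hB'⟩ := hy
    refine ⟨A ∪ B, hA.union hB, fun δ hδ => ?_⟩
    rw [mem_union, not_or] at hδ
    obtain ⟨g, hg, hg'⟩ := hA' δ hδ.1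
    obtain ⟨k, hk, hk'⟩ := hB' δ hδ.2
    exact ⟨g * k, mul_mem hg hk, fun w hw => by simp [hg' hw, hk' hw]⟩
  | inv x _ hx =>
    obtain ⟨A, hA, hA'⟩ := hx
    refine ⟨A, hA, fun δ hδ => ?_⟩
    obtain ⟨g, hg, hg'⟩ := hA' δ hδ
    exact ⟨g⁻¹, inv_mem hg, fun w hw => by simp [hg' hw]⟩

/-- Every element of the whole group lies in some `Gs h`. -/
lemma exists_mem_Gs [Nonempty W] [NoMaxOrder W] {x : W → ℤˣ} (hx : x ∈ Gall W) :
    ∃ h, x ∈ Gs h := by
  induction hx using Subgroup.closure_induction with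
  | mem x hx =>
    obtain ⟨ξ, hx⟩ := hx
    obtain ⟨h, hh⟩ := exists_gt ξ
    exact ⟨h, Subgroup.subset_closure ⟨ξ, hh, hx⟩⟩
  | one => exact ⟨Classical.arbitrary W, one_mem _⟩
  | mul x y _ _ hx hy =>
    obtain ⟨a, ha⟩ := hx
    obtain ⟨b, hb⟩ := hy
    exact ⟨max a b, mul_mem (Gs_mono (le_max_left _ _) ha) (Gs_mono (le_max_right _ _) hb)⟩
  | inv x _ hx =>
    obtain ⟨a, ha⟩ := hx
    exact ⟨a, inv_mem ha⟩

/-- Cardinality of `Gs h`. -/
lemma mk_Gs_lt (hunc : ℵ₀ < #W) (hinit : ∀ w : W, #(Iio w) < #W) (h : W) : #(Gs h) < #W := by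
  have h1 : #(gens h) ≤ #(Iio h) + #(Iio h) := by
    have : gens h ⊆ (fun ξ => chi {ξ}) '' (Iio h) ∪ (fun ξ => chi (ladder ξ)) '' (Iio h) := by
      rintro x ⟨ξ, hξ, rfl | rfl⟩
      · exact Or.inl ⟨ξ, hξ, rfl⟩
      · exact Or.inr ⟨ξ, hξ, rfl⟩
    refine (Cardinal.mk_le_mk_of_subset this).trans ((Cardinal.mk_union_le _ _).trans ?_)
    exact add_le_add Cardinal.mk_image_le Cardinal.mk_image_le
  have h2 : #(gens h) < #W := lt_of_le_of_lt h1 (Cardinal.add_lt_of_lt hunc.le (hinit h) (hinit h))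
  have h3 : #(Gs h) ≤ #(List (gens h)) := by
    refine Cardinal.mk_le_of_surjective
      (f := fun l : List (gens h) => (⟨(l.map Subtype.val).prod, ?_⟩ : Gs h)) ?_
    · apply list_prod_mem
      intro x hx
      rw [List.mem_map] at hx
      obtain ⟨y, _, rfl⟩ := hx
      exact Subgroup.subset_closure y.2
    · rintro ⟨x, hx⟩
      have key : ∃ l : List (gens h), (l.map Subtype.val).prod = x := by
        unfold Gs at hx
        induction hx using Subgroup.closure_induction with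
        | mem x hx => exact ⟨[⟨x, hx⟩], by simp⟩
        | one => exact ⟨[], by simp⟩
        | mul x y _ _ hx hy =>
          obtain ⟨l, rfl⟩ := hx
          obtain ⟨l', rfl⟩ := hy
          exact ⟨l ++ l', by simp⟩
        | inv x _ hx =>
          obtain ⟨l, rfl⟩ := hx
          exact ⟨l, (inv_self _).symm⟩
      obtain ⟨l, rfl⟩ := key
      exact ⟨l, rfl⟩
  refine lt_of_le_of_lt (h3.trans (Cardinal.mk_list_le_max _)) (max_lt hunc h2)

/-! ### The topological group -/

variable (W) in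
/-- The underlying type of the group. -/
def Grp : Type := ↥(Gall W)

noncomputable instance : CommGroup (Grp W) := inferInstanceAs (CommGroup ↥(Gall W))

/-- Underlying function. -/
def Grp.val (x : Grp W) : W → ℤˣ := Subtype.val (p := (· ∈ Gall W)) x

lemma Grp.ext {x y : Grp W} (h : x.val = y.val) : x = y := Subtype.ext h
lemma Grp.val_mem (x : Grp W) : x.val ∈ Gall W := Subtype.property (p := (· ∈ Gall W)) x
@[simp] lemma Grp.val_one : (1 : Grp W).val = 1 := rfl
@[simp] lemma Grp.val_mul (x y : Grp W) : (x * y).val = x.val * y.val := rfl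
@[simp] lemma Grp.val_inv (x : Grp W) : (x⁻¹).val = x.val⁻¹ := rfl

/-- basic neighbourhoods -/
def Bs (γ : W) (x : Grp W) : Set (Grp W) := {y | EqOn y.val x.val (Iio γ)}

lemma self_mem_Bs (γ : W) (x : Grp W) : x ∈ Bs γ x := fun _ _ => rfl

lemma Bs_anti {γ γ' : W} (h : γ ≤ γ') (x : Grp W) : Bs γ' x ⊆ Bs γ x :=
  fun _ hy w hw => hy (lt_of_lt_of_le hw h)

lemma Bs_eq {γ : W} {x y : Grp W} (h : y ∈ Bs γ x) : Bs γ y = Bs γ x := by
  ext z
  constructor
  · intro hz w hw; rw [hz hw, h hw]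
  · intro hz w hw; rw [hz hw, h hw]

instance [Nonempty W] : TopologicalSpace (Grp W) where
  IsOpen U := ∀ x ∈ U, ∃ γ, Bs γ x ⊆ U
  isOpen_univ := fun _ _ => ⟨Classical.arbitrary W, subset_univ _⟩
  isOpen_inter := by
    intro U V hU hV x hx
    obtain ⟨γ, hγ⟩ := hU x hx.1
    obtain ⟨γ', hγ'⟩ := hV x hx.2
    exact ⟨max γ γ', subset_inter ((Bs_anti (le_max_left _ _) x).trans hγ)
      ((Bs_anti (le_max_right _ _) x).trans hγ')⟩
  isOpen_sUnion := by
    intro S hS x hx
    obtain ⟨U, hU, hxU⟩ := hx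
    obtain ⟨γ, hγ⟩ := hS U hU x hxU
    exact ⟨γ, hγ.trans (subset_sUnion_of_mem hU)⟩

variable [Nonempty W]

lemma isOpen_iff {U : Set (Grp W)} : IsOpen U ↔ ∀ x ∈ U, ∃ γ, Bs γ x ⊆ U := Iff.rfl

lemma isOpen_Bs (γ : W) (x : Grp W) : IsOpen (Bs γ x) := by
  rw [isOpen_iff]
  intro y hy
  exact ⟨γ, (Bs_eq hy).subset⟩

lemma mem_nhds_iff' {x : Grp W} {s : Set (Grp W)} : s ∈ 𝓝 x ↔ ∃ γ, Bs γ x ⊆ s := by
  rw [mem_nhds_iff]
  constructor
  · rintro ⟨t, hts, ht, hxt⟩
    obtain ⟨γ, hγ⟩ := isOpen_iff.1 ht x hxt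
    exact ⟨γ, hγ.trans hts⟩
  · rintro ⟨γ, hγ⟩
    exact ⟨_, hγ, isOpen_Bs γ x, self_mem_Bs γ x⟩

lemma Bs_mem_nhds (γ : W) (x : Grp W) : Bs γ x ∈ 𝓝 x := mem_nhds_iff'.2 ⟨γ, Subset.rfl⟩

instance : IsTopologicalGroup (Grp W) where
  continuous_mul := by
    rw [continuous_def]
    intro U hU
    rw [isOpen_prod_iff]
    intro a b hab
    obtain ⟨γ, hγ⟩ := isOpen_iff.1 hU _ hab
    refine ⟨Bs γ a, Bs γ b, isOpen_Bs _ _, isOpen_Bs _ _, self_mem_Bs _ _, self_mem_Bs _ _, ?_⟩
    rintro ⟨c, d⟩ ⟨hc, hd⟩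
    apply hγ
    intro w hw
    simp only [Grp.val_mul, Pi.mul_apply]
    rw [hc hw, hd hw]
  continuous_inv := by
    rw [continuous_def]
    intro U hU
    rw [isOpen_iff]
    intro a ha
    obtain ⟨γ, hγ⟩ := isOpen_iff.1 hU _ ha
    refine ⟨γ, fun b hb => hγ ?_⟩
    intro w hw
    simp only [Grp.val_inv, Pi.inv_apply]
    rw [hb hw]

instance [NoMaxOrder W] : T2Space (Grp W) := by
  refine ⟨fun x y hxy => ?_⟩
  have : ∃ w, x.val w ≠ y.val w := by
    by_contra! h
    exact hxy (Grp.ext (funext h))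
  obtain ⟨w, hw⟩ := this
  obtain ⟨γ, hγ⟩ := exists_gt w
  refine ⟨Bs γ x, Bs γ y, isOpen_Bs _ _, isOpen_Bs _ _, self_mem_Bs _ _, self_mem_Bs _ _, ?_⟩
  rw [Set.disjoint_left]
  intro z hz hz'
  exact hw ((hz hγ).symm.trans (hz' hγ))

/-- The lexicographic embedding. -/
def toLex' (x : Grp W) : Lex (W → ℤˣ) := toLex x.val

lemma generalizedOrderable [WellFoundedLT W] [NoMaxOrder W] : IsGeneralizedOrderable (Grp W) := by
  have hinj : Function.Injective (toLex' (W := W)) := fun x y h => Grp.ext (toLex_inj.1 h)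
  let L : LinearOrder (Grp W) := LinearOrder.lift' (toLex' (W := W)) hinj
  have hlt : ∀ x y : Grp W, x < y ↔ ∃ i, (∀ j < i, x.val j = y.val j) ∧ x.val i < y.val i := by
    intro x y
    exact Iff.rfl
  refine ⟨L, ?_, ⟨{s | ∃ γ x, s = Bs γ x}, ?_, ?_⟩⟩
  · apply le_generateFrom
    rintro s ⟨a, rfl | rfl⟩
    · rw [isOpen_iff]
      intro y hy
      obtain ⟨i, hi, hi'⟩ := (hlt a y).1 hy
      obtain ⟨γ, hγ⟩ := exists_gt i
      refine ⟨γ, fun z hz => (hlt a z).2 ⟨i, fun j hj => ?_, ?_⟩⟩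
      · rw [hi j hj, hz (lt_trans hj hγ)]
      · rw [hz hγ]; exact hi'
    · rw [isOpen_iff]
      intro y hy
      obtain ⟨i, hi, hi'⟩ := (hlt y a).1 hy
      obtain ⟨γ, hγ⟩ := exists_gt i
      refine ⟨γ, fun z hz => (hlt z a).2 ⟨i, fun j hj => ?_, ?_⟩⟩
      · rw [← hi j hj, hz (lt_trans hj hγ)]
      · rw [hz hγ]; exact hi'
  · apply TopologicalSpace.isTopologicalBasis_of_isOpen_of_nhds
    · rintro _ ⟨γ, x, rfl⟩
      exact isOpen_Bs γ x
    · intro a u ha hu
      obtain ⟨γ, hγ⟩ := isOpen_iff.1 hu a ha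
      exact ⟨Bs γ a, ⟨γ, a, rfl⟩, self_mem_Bs _ _, hγ⟩
  · rintro _ ⟨γ, x, rfl⟩
    refine ⟨fun y hy z hz w hw => ?_⟩
    obtain ⟨hyw, hwz⟩ := hw
    by_contra hcon
    have hex : ∃ i, i < γ ∧ w.val i ≠ x.val i := by
      by_contra! h
      exact hcon (fun i hi => h i hi)
    obtain ⟨i, ⟨hiγ, hi⟩, hmin⟩ := WellFounded.has_min (wellFounded_lt (α := W))
      {i | i < γ ∧ w.val i ≠ x.val i} hex
    have hbelow : ∀ j < i, w.val j = x.val j := by
      intro j hj
      by_contra h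
      exact hmin j ⟨lt_trans hj hiγ, h⟩ hj
    -- from `y ≤ w` and `y = x` below `γ`, `x i < w i`
    have h1 : x.val i < w.val i := by
      rcases eq_or_lt_of_le hyw with h | h
      · exact absurd (h ▸ hy hiγ) hi
      · obtain ⟨k, hk, hk'⟩ := (hlt y w).1 h
        rcases lt_trichotomy k i with hki | hki | hki
        · rw [hbelow k hki, ← hy (lt_trans hki hiγ)] at hk'
          exact absurd hk' (lt_irrefl _)
        · subst hki
          rwa [hy hiγ] at hk'
        · exact absurd ((hk i hki).symm.trans (hy hiγ)) hi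
    have h2 : w.val i < x.val i := by
      rcases eq_or_lt_of_le hwz with h | h
      · exact absurd (h ▸ hz hiγ) hi
      · obtain ⟨k, hk, hk'⟩ := (hlt w z).1 h
        rcases lt_trichotomy k i with hki | hki | hki
        · rw [hbelow k hki, ← hz (lt_trans hki hiγ)] at hk'
          exact absurd hk' (lt_irrefl _)
        · subst hki
          rwa [hz hiγ] at hk'
        · exact absurd ((hk i hki).trans (hz hiγ)) hi
    exact absurd (lt_trans h1 h2) (lt_irrefl _)

lemma hasBase {φ : (ℕ → ℕ) → W} (hmono : Monotone φ) (hcof : ∀ w, ∃ α, w ≤ φ α) :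
    HasOmegaOmegaBase (Grp W) := by
  intro x
  refine ⟨fun α => Bs (φ α) x, ⟨fun t => ?_⟩, fun α β h => Bs_anti (hmono h) x⟩
  rw [mem_nhds_iff']
  constructor
  · rintro ⟨γ, hγ⟩
    obtain ⟨α, hα⟩ := hcof γ
    exact ⟨α, trivial, (Bs_anti hα x).trans hγ⟩
  · rintro ⟨α, -, hα⟩
    exact ⟨_, hα⟩

/-! ### Closing off -/

/-- Iterating an increasing function gives a point closed under it, which has a ladder. -/
lemma exists_closure_point [WellFoundedLT W] (hctb : ∀ f : ℕ → W, ∃ b, ∀ n, f n < b)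
    (F : W → W) (hF : ∀ w, w < F w) (a : W) :
    ∃ δ, a < δ ∧ (∃ s : ℕ → W, IsLadder s δ ∧ ∀ n, F (s n) = s (n + 1)) := by
  let s : ℕ → W := fun n => F^[n] a
  have hs : ∀ n, F (s n) = s (n + 1) := fun n => (Function.iterate_succ_apply' F n a).symm
  have hmono : StrictMono s := strictMono_nat_of_lt_succ (fun n => by rw [← hs]; exact hF _)
  obtain ⟨δ, hδ, hmin⟩ := WellFounded.has_min (wellFounded_lt (α := W))
    {b | ∀ n, s n < b} (hctb s)
  refine ⟨δ, hδ 0, s, ⟨hmono, hδ, fun w hw => ?_⟩, hs⟩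
  by_contra! h
  refine hmin w (fun n => ?_) hw
  exact lt_of_lt_of_le (hmono (Nat.lt_succ_self n)) (h (n + 1))

/-- An element of `Gs δ` lies in `Gs (s n)` for some `n`, for a ladder `s` at `δ`. -/
lemma mem_Gs_ladder {s : ℕ → W} {δ : W} (hs : IsLadder s δ) {x : W → ℤˣ} (hx : x ∈ Gs δ) :
    ∃ n, x ∈ Gs (s n) := by
  unfold Gs at hx
  induction hx using Subgroup.closure_induction with
  | mem x hx =>
    obtain ⟨ξ, hξ, hx⟩ := hx
    obtain ⟨n, hn⟩ := hs.2.2 ξ hξ
    exact ⟨n, Subgroup.subset_closure ⟨ξ, hn, hx⟩⟩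
  | one => exact ⟨0, one_mem _⟩
  | mul x y _ _ hx hy =>
    obtain ⟨a, ha⟩ := hx
    obtain ⟨b, hb⟩ := hy
    exact ⟨max a b, mul_mem (Gs_mono (hs.1.monotone (le_max_left _ _)) ha)
      (Gs_mono (hs.1.monotone (le_max_right _ _)) hb)⟩
  | inv x _ hx =>
    obtain ⟨a, ha⟩ := hx
    exact ⟨a, inv_mem ha⟩

/-- Key lemma: a subset of the group which is locally captured is contained in some `Gs h`. -/
lemma captured [WellFoundedLT W] [NoMaxOrder W]
    (hunc : ℵ₀ < #W) (hinit : ∀ w : W, #(Iio w) < #W)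
    (hreg : ∀ (A : Type) (f : A → W), #A < #W → ∃ b, ∀ a, f a < b)
    (Y : Set (Grp W)) (hY : ∀ g : Grp W, ∃ γ : W, ∀ y ∈ Y, y ∈ Bs γ g → y.val ∈ Gs γ) :
    ∃ h : W, ∀ y ∈ Y, y.val ∈ Gs h := by
  classical
  have hctb : ∀ f : ℕ → W, ∃ b, ∀ n, f n < b := fun f => hreg ℕ f (by simpa using hunc)
  choose F hF using hY
  -- bound `F` on `Gs h`
  have hb : ∀ h : W, ∃ h' : W, h < h' ∧ ∀ g : Grp W, g.val ∈ Gs h → F g < h' := by
    intro h
    obtain ⟨b, hb⟩ := hreg (Gs h) (fun g => F ⟨g.1, Gs_le_Gall h g.2⟩)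
      (mk_Gs_lt hunc hinit h)
    obtain ⟨c, hc⟩ := exists_gt (max b h)
    refine ⟨c, lt_of_le_of_lt (le_max_right _ _) hc, fun g hg => ?_⟩
    exact (hb ⟨g.val, hg⟩).trans (lt_of_le_of_lt (le_max_left _ _) hc)
  choose N hN hN' using hb
  -- closure points
  have hcp : ∀ a : W, ∃ δ, a < δ ∧ ∀ g : Grp W, g.val ∈ Gs δ → F g < δ := by
    intro a
    obtain ⟨δ, haδ, s, hs, hs'⟩ := exists_closure_point hctb N hN a
    refine ⟨δ, haδ, fun g hg => ?_⟩
    obtain ⟨n, hn⟩ := mem_Gs_ladder hs hg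
    calc F g < N (s n) := hN' _ _ hn
      _ = s (n + 1) := hs' n
      _ < δ := hs.2.1 _
  choose D hD hD' using hcp
  -- a strictly increasing sequence of closure points
  let d : ℕ → W := fun n => D^[n + 1] (Classical.arbitrary W)
  have hd : ∀ n, d (n + 1) = D (d n) := fun n => Function.iterate_succ_apply' D (n + 1) _
  have hd0 : ∀ n, ∃ a, d n = D a := fun n => ⟨_, Function.iterate_succ_apply' D n _⟩
  have hdmono : StrictMono d := strictMono_nat_of_lt_succ (fun n => by rw [hd]; exact hD _)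
  obtain ⟨h, hh⟩ := hctb d
  refine ⟨h, fun y hy => ?_⟩
  obtain ⟨A, hA, hA'⟩ := exists_finite_bad y.val_mem
  -- some `d m` is not in `A`
  have : ∃ m, d m ∉ A := by
    by_contra! hcon
    exact (Set.infinite_range_of_injective hdmono.injective)
      (hA.subset (by rintro _ ⟨m, rfl⟩; exact hcon m))
  obtain ⟨m, hm⟩ := this
  obtain ⟨g, hg, hgy⟩ := hA' (d m) hm
  let g' : Grp W := ⟨g, Gs_le_Gall _ hg⟩
  have hFg : F g' < d m := by
    obtain ⟨a, ha⟩ := hd0 m
    rw [ha]
    exact hD' a g' (ha ▸ hg)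
  have h1 : y ∈ Bs (F g') g' := fun w hw => (hgy (lt_trans hw hFg)).symm
  exact Gs_mono (le_of_lt (lt_trans hFg (hh m))) (hF g' y hy h1)

/-- The group has no suitable set. -/
lemma no_suitable [WellFoundedLT W] [NoMaxOrder W]
    (hunc : ℵ₀ < #W) (hinit : ∀ w : W, #(Iio w) < #W)
    (hreg : ∀ (A : Type) (f : A → W), #A < #W → ∃ b, ∀ a, f a < b) (S : Set (Grp W)) :
    ¬ IsSuitableSet S := by
  rintro ⟨hdisc, hclosed, hdense⟩
  have hctb : ∀ f : ℕ → W, ∃ b, ∀ n, f n < b := fun f => hreg ℕ f (by simpa using hunc)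
  -- for each `ρ`, the part of `S` away from `1` is captured
  have hcap : ∀ ρ : W, ∃ h : W, ∀ y ∈ S \ Bs ρ 1, y.val ∈ Gs h := by
    intro ρ
    apply captured hunc hinit hreg
    intro g
    by_cases hg1 : g = 1
    · subst hg1
      exact ⟨ρ, fun y hy hy' => absurd hy' hy.2⟩
    by_cases hgS : g ∈ S
    · -- isolated in `S`
      have h1 : ∃ U : Set (Grp W), IsOpen U ∧ U ∩ S = {g} := by
        have := (isOpen_discrete ({⟨g, hgS⟩} : Set S))
        obtain ⟨U, hU, hU'⟩ := isOpen_induced_iff.1 this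
        refine ⟨U, hU, ?_⟩
        ext z
        constructor
        · rintro ⟨hz, hzS⟩
          have : (⟨z, hzS⟩ : S) ∈ Subtype.val ⁻¹' U := hz
          rw [hU'] at this
          simpa using this
        · intro hz
          rw [Set.mem_singleton_iff] at hz
          subst hz
          refine ⟨?_, hgS⟩
          have : (⟨z, hgS⟩ : S) ∈ Subtype.val ⁻¹' U := by rw [hU']; rfl
          exact this
      obtain ⟨U, hU, hUg⟩ := h1
      have hgU : g ∈ U := (hUg.symm.subset (mem_singleton g)).1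
      obtain ⟨γ, hγ⟩ := isOpen_iff.1 hU g hgU
      obtain ⟨h, hh⟩ := exists_mem_Gs g.val_mem
      refine ⟨max γ h, fun y hy hy' => ?_⟩
      have hyg : y ∈ U ∩ S := ⟨hγ (Bs_anti (le_max_left _ _) g hy'), hy.1⟩
      rw [hUg, Set.mem_singleton_iff] at hyg
      subst hyg
      exact Gs_mono (le_max_right _ _) hh
    · have hgc : g ∈ (S ∪ {1})ᶜ := by
        rintro (h | h)
        · exact hgS h
        · exact hg1 h
      obtain ⟨γ, hγ⟩ := isOpen_iff.1 hclosed.isOpen_compl g hgc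
      exact ⟨γ, fun y hy hy' => absurd (Or.inl hy.1) (hγ hy')⟩
  choose H hH using hcap
  -- a point closed under `H`
  have hN : ∀ w : W, ∃ w', w < w' ∧ H w < w' := by
    intro w
    obtain ⟨c, hc⟩ := exists_gt (max w (H w))
    exact ⟨c, lt_of_le_of_lt (le_max_left _ _) hc, lt_of_le_of_lt (le_max_right _ _) hc⟩
  choose N hN1 hN2 using hN
  obtain ⟨δ, -, s, hs, hs'⟩ := exists_closure_point hctb N hN1 (Classical.arbitrary W)
  -- the ladder element
  let c : Grp W := ⟨chi (ladder δ), Subgroup.subset_closure ⟨δ, Or.inr rfl⟩⟩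
  obtain ⟨e, he, he'⟩ := (hdense.inter_open_nonempty _ (isOpen_Bs δ c) ⟨c, self_mem_Bs _ _⟩)
  -- elements of the subgroup generated by `S` agree below `δ` with elements of `Gs (s n)`
  have key : ∀ e ∈ Subgroup.closure S, ∃ n, ∃ g ∈ Gs (s n), EqOn g e.val (Iio δ) := by
    intro e he
    induction he using Subgroup.closure_induction with
    | mem x hx =>
      by_cases hx1 : x ∈ Bs δ 1
      · exact ⟨0, 1, one_mem _, fun w hw => (hx1 hw).symm⟩
      · have : ∃ w, w < δ ∧ x.val w ≠ 1 := by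
          by_contra! hcon
          exact hx1 (fun w hw => hcon w hw)
        obtain ⟨w, hw, hw'⟩ := this
        obtain ⟨n, hn⟩ := hs.2.2 w hw
        refine ⟨n + 1, x.val, ?_, fun _ _ => rfl⟩
        have h1 : x ∈ S \ Bs (s n) 1 := ⟨hx, fun h => hw' (h hn)⟩
        have h2 : H (s n) < s (n + 1) := by rw [← hs' n]; exact hN2 _
        exact Gs_mono h2.le (hH _ x h1)
    | one => exact ⟨0, 1, one_mem _, fun _ _ => rfl⟩
    | mul x y _ _ hx hy =>
      obtain ⟨a, g, hg, hga⟩ := hx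
      obtain ⟨b, k, hk, hkb⟩ := hy
      refine ⟨max a b, g * k, mul_mem (Gs_mono (hs.1.monotone (le_max_left _ _)) hg)
        (Gs_mono (hs.1.monotone (le_max_right _ _)) hk), fun w hw => ?_⟩
      simp [hga hw, hkb hw]
    | inv x _ hx =>
      obtain ⟨a, g, hg, hga⟩ := hx
      exact ⟨a, g⁻¹, inv_mem hg, fun w hw => by simp [hga hw]⟩
  obtain ⟨n, g, hg, hge⟩ := key e he'
  obtain ⟨w, hw, hnw⟩ := ladder_unbounded ⟨s, hs⟩ (hs.2.1 n)
  have hwδ : w < δ := ladder_lt hw
  have h1 : g w = 1 := Gs_supp hg w hnw.le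
  have h2 : e.val w = chi (ladder δ) w := he hwδ
  rw [chi_of_mem hw, ← hge hwδ, h1] at h2
  exact absurd h2 (by decide)

end Construction

/-! ## The bounding number -/

section Bounding

/-- `A` is unbounded modulo finite. -/
def Unb (A : Set (ℕ → ℕ)) : Prop := ¬ ∃ g : ℕ → ℕ, ∀ f ∈ A, ∀ᶠ n in atTop, f n ≤ g n

lemma unb_univ : Unb univ := by
  rintro ⟨g, hg⟩
  obtain ⟨n, hn⟩ := (hg (fun n => g n + 1) trivial).exists
  omega

/-- The bounding number. -/
noncomputable def bdd : Cardinal.{0} := sInf {c | ∃ A : Set (ℕ → ℕ), #A = c ∧ Unb A}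

lemma exists_unb : ∃ A : Set (ℕ → ℕ), #A = bdd ∧ Unb A :=
  csInf_mem (s := {c | ∃ A : Set (ℕ → ℕ), #A = c ∧ Unb A}) ⟨_, univ, rfl, unb_univ⟩

lemma bounded_of_lt {A : Set (ℕ → ℕ)} (h : #A < bdd) :
    ∃ g : ℕ → ℕ, ∀ f ∈ A, ∀ᶠ n in atTop, f n ≤ g n := by
  by_contra hcon
  exact notMem_of_lt_csInf' h ⟨A, rfl, hcon⟩

lemma bounded_family {X : Type} (F : X → ℕ → ℕ) (h : #X < bdd) :
    ∃ g : ℕ → ℕ, ∀ x, ∀ᶠ n in atTop, F x n ≤ g n := by
  obtain ⟨g, hg⟩ := bounded_of_lt (A := range F) (lt_of_le_of_lt Cardinal.mk_range_le h)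
  exact ⟨g, fun x => hg _ ⟨x, rfl⟩⟩

/-- countable families are bounded -/
lemma bounded_nat (F : ℕ → ℕ → ℕ) : ∃ g : ℕ → ℕ, ∀ x, ∀ᶠ n in atTop, F x n ≤ g n := by
  refine ⟨fun n => ∑ k ∈ Finset.range (n + 1), F k n, fun x => ?_⟩
  filter_upwards [eventually_ge_atTop x] with n hn
  exact Finset.single_le_sum (f := fun k => F k n) (fun _ _ => Nat.zero_le _)
    (Finset.mem_range.2 (Nat.lt_succ_of_le hn))

lemma aleph0_lt_bdd : ℵ₀ < bdd := by
  by_contra! hcon
  obtain ⟨A, hA, hA'⟩ := exists_unb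
  have hc : A.Countable := by
    rw [← Cardinal.le_aleph0_iff_set_countable, hA]; exact hcon
  rcases A.eq_empty_or_nonempty with rfl | hne
  · exact hA' ⟨0, by simp⟩
  · obtain ⟨f, rfl⟩ := hc.exists_eq_range hne
    obtain ⟨g, hg⟩ := bounded_nat f
    exact hA' ⟨g, by rintro _ ⟨x, rfl⟩; exact hg x⟩

end Bounding

/-- There is a generalized orderable Hausdorff topological group (even abelian) with an
`ω^ω`-base that has no suitable set. -/
theorem result : ∃ (G : Type) (_ : CommGroup G) (_ : TopologicalSpace G),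
    IsTopologicalGroup G ∧ T2Space G ∧ IsGeneralizedOrderable G ∧ HasOmegaOmegaBase G ∧
      ¬ ∃ S : Set G, IsSuitableSet S := by
  obtain ⟨A, hA, hA'⟩ := exists_unb
  let W : Type := bdd.ord.ToType
  have hW : #W = bdd := Cardinal.mk_ord_toType _
  obtain ⟨e⟩ : Nonempty (W ≃ A) := Cardinal.eq.1 (hW.trans hA.symm)
  let F : W → ℕ → ℕ := fun w => (e w).1
  have hF : ∀ α : ℕ → ℕ, ∃ w, ¬ ∀ᶠ n in atTop, F w n ≤ α n := by
    intro α
    by_contra! hcon
    refine hA' ⟨α, fun f hf => ?_⟩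
    have := hcon (e.symm ⟨f, hf⟩)
    simpa [F] using this
  have hunc : ℵ₀ < #W := hW ▸ aleph0_lt_bdd
  have hinit : ∀ w : W, #(Iio w) < #W := fun w =>
    Cardinal.mk_Iio_lt w (by rw [hW]; exact (Ordinal.type_toType _).symm)
  have hinit' : ∀ w : W, #(Iic w) < #W := fun w => by
    have : Iic w = Iio w ∪ {w} := by
      ext x; simp [le_iff_lt_or_eq]
    rw [this]
    refine lt_of_le_of_lt (Cardinal.mk_union_le _ _) (Cardinal.add_lt_of_lt hunc.le (hinit w) ?_)
    simpa using (Cardinal.one_lt_aleph0.trans hunc)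
  have hreg : ∀ (X : Type) (f : X → W), #X < #W → ∃ b, ∀ a, f a < b := by
    intro X f hX
    by_contra! hcon
    -- each initial segment is bounded
    have h1 : ∀ w : W, ∃ g : ℕ → ℕ, ∀ v ≤ w, ∀ᶠ n in atTop, F v n ≤ g n := by
      intro w
      obtain ⟨g, hg⟩ := bounded_family (fun v : Iic w => F v.1)
        ((hinit' w).trans_eq hW)
      exact ⟨g, fun v hv => hg ⟨v, hv⟩⟩
    choose g hg using h1
    obtain ⟨k, hk⟩ := bounded_family (fun x : X => g (f x)) (hX.trans_eq hW)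
    obtain ⟨w, hw⟩ := hF k
    obtain ⟨x, hx⟩ := hcon w
    apply hw
    filter_upwards [hk x, hg (f x) w hx] with n h2 h3
    exact h3.trans h2
  have : Nonempty W := by
    rw [← Cardinal.mk_ne_zero_iff]
    exact (Cardinal.aleph0_pos.trans hunc).ne'
  have : NoMaxOrder W := ⟨fun w => by
    obtain ⟨b, hb⟩ := hreg Unit (fun _ => w) (by simpa using (Cardinal.one_lt_aleph0.trans hunc))
    exact ⟨b, hb ()⟩⟩
  -- the monotone cofinal map
  let φ : (ℕ → ℕ) → W := fun α => WellFounded.min (wellFounded_lt (α := W))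
    {w | ¬ ∀ᶠ n in atTop, F w n ≤ α n} (hF α)
  have hφ : ∀ α, ¬ ∀ᶠ n in atTop, F (φ α) n ≤ α n := fun α =>
    WellFounded.min_mem (wellFounded_lt (α := W)) {w | ¬ ∀ᶠ n in atTop, F w n ≤ α n} (hF α)
  have hφ' : ∀ α w, (¬ ∀ᶠ n in atTop, F w n ≤ α n) → φ α ≤ w := fun α w hw =>
    WellFounded.min_le (wellFounded_lt (α := W)) hw
  have hmono : Monotone φ := by
    intro α β h
    apply hφ'
    intro hcon
    apply hφ β
    filter_upwards [hcon] with n hn
    exact hn.trans (h n)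
  have hcof : ∀ w, ∃ α, w ≤ φ α := by
    intro w
    obtain ⟨g, hg⟩ := bounded_family (fun v : Iic w => F v.1)
        ((hinit' w).trans_eq hW)
    refine ⟨g, ?_⟩
    by_contra! hcon
    exact hφ g (hg ⟨φ g, hcon.le⟩)
  exact ⟨Grp W, inferInstance, inferInstance, inferInstance, inferInstance,
    generalizedOrderable, hasBase hmono hcof, fun ⟨S, hS⟩ => no_suitable hunc hinit hreg S hS⟩

end Pool.Agent.Results.MP_eb7acf_gt.NoSuitableSet
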